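import Pool.Agent.H.MP_bb4c62_an.helper6.NDefs

/-!
Semilinear bijections: automatic continuity, conjugation of quasinilpotent operators.
-/

namespace Pool.Agent.H.MP_bb4c62_an.helper6.NL

open Complex Metric Set Filter Topology
open Pool.Agent.H.MP_bb4c62_an.helper6.Perturb
open Pool.Agent.H.MP_bb4c62_an.helper6.Gadgets

variable {X : Type*} [NormedAddCommGroup X] [NormedSpace ℂ X]
variable {Y : Type*} [NormedAddCommGroup Y] [NormedSpace ℂ Y]

theorem continuous_of_duals {E : Type*} [NormedAddCommGroup E] [NormedSpace ℂ E]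
    [CompleteSpace E] [CompleteSpace Y] (S : E ≃+ Y) (τ : ℂ ≃+* ℂ)
    (hτ : Continuous τ) (hS : ∀ (c : ℂ) x, S (c • x) = τ c • S x)
    (hdual : ∀ g : Y →L[ℂ] ℂ, Continuous fun x => g (S x)) :
    Continuous S ∧ Continuous S.symm := by
  have hreal : ∀ r : ℝ, τ (r : ℂ) = r := by
    intro r
    rcases Complex.ringHom_eq_id_or_conj_of_continuous (f := (τ : ℂ →+* ℂ)) hτ with h | h
    · have := congrArg (fun f : ℂ →+* ℂ => f r) h
      exact this
    · have := congrArg (fun f : ℂ →+* ℂ => f r) h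
      exact this.trans (Complex.conj_ofReal r)
  let A : E ≃ₗ[ℝ] Y :=
    { S with
      map_smul' := fun r x => by
        change S (r • x) = r • S x
        rw [← Complex.coe_smul, hS, hreal, Complex.coe_smul] }
  have hA : Continuous A := by
    apply LinearMap.continuous_of_seq_closed_graph (g := (A : E →ₗ[ℝ] Y))
    intro u x y hu hAu
    apply (SeparatingDual.eq_iff_forall_dual_eq (R := ℂ)).mpr
    intro g
    have h1 : Tendsto (fun n => g (S (u n))) atTop (𝓝 (g y)) :=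
      (g.continuous.tendsto y).comp hAu
    have h2 : Tendsto (fun n => g (S (u n))) atTop (𝓝 (g (S x))) :=
      ((hdual g).tendsto x).comp hu
    exact tendsto_nhds_unique h1 h2
  exact ⟨hA, (A.toContinuousLinearEquivOfContinuous hA).symm.continuous⟩

theorem symm_semi {Z : Type*} [NormedAddCommGroup Z] [NormedSpace ℂ Z]
    (S : Z ≃+ Y) (τ : ℂ ≃+* ℂ) (hS : ∀ (c : ℂ) x, S (c • x) = τ c • S x) (c : ℂ) (y : Y) :
    S.symm (c • y) = τ.symm c • S.symm y := by
  apply S.injective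
  rw [hS, AddEquiv.apply_symm_apply, AddEquiv.apply_symm_apply, RingEquiv.apply_symm_apply]

theorem conj_qn_semi_aux {Z : Type*} [NormedAddCommGroup Z] [NormedSpace ℂ Z]
    (S : Z ≃+ Y) (τ : ℂ ≃+* ℂ) (hS : ∀ (c : ℂ) x, S (c • x) = τ c • S x)
    (hc : (Module.Finite ℂ Z ∧ Module.Finite ℂ Y) ∨ (Continuous S ∧ Continuous S.symm))
    {U : Y →L[ℂ] Y} {V : Z →L[ℂ] Z} {c : ℂ}
    (h : ∀ x, U (S x) = c • S (V x)) (hV : QN V) : QN U := by
  rw [QN, qn_iff]
  intro z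
  have hV' := (qn_iff V).1 hV (τ.symm (z * c))
  obtain ⟨R, hR⟩ := hV'
  have key : ∀ x, (1 - z • U) (S x) = S ((1 - τ.symm (z * c) • V) x) := by
    intro x
    change S x - z • U (S x) = S (x - τ.symm (z * c) • V x)
    rw [map_sub, hS, RingEquiv.apply_symm_apply, h, smul_smul]
  let B0 : Y →ₗ[ℂ] Y :=
    { toFun := fun y => S ((R⁻¹ : (Z →L[ℂ] Z)ˣ).val (S.symm y))
      map_add' := fun y y' => by
        rw [map_add, map_add, map_add]
      map_smul' := fun a y => by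
        rw [symm_semi S τ hS, map_smul, hS, RingEquiv.apply_symm_apply]
        rfl }
  have hB0 : Continuous B0 := by
    rcases hc with ⟨-, hY⟩ | ⟨h1, h2⟩
    · exact LinearMap.continuous_of_finiteDimensional B0
    · exact h1.comp ((R⁻¹ : (Z →L[ℂ] Z)ˣ).val.continuous.comp h2)
  let B : Y →L[ℂ] Y := ⟨B0, hB0⟩
  have hB : ∀ w, B (S w) = S ((R⁻¹ : (Z →L[ℂ] Z)ˣ).val w) := by
    intro w
    change S ((R⁻¹ : (Z →L[ℂ] Z)ˣ).val (S.symm (S w))) = _
    rw [AddEquiv.symm_apply_apply]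
  have h1 : ∀ w, (1 - τ.symm (z * c) • V) ((R⁻¹ : (Z →L[ℂ] Z)ˣ).val w) = w := by
    intro w
    rw [← hR]
    exact congrArg (fun T : Z →L[ℂ] Z => T w) R.mul_inv
  have h2 : ∀ w, (R⁻¹ : (Z →L[ℂ] Z)ˣ).val ((1 - τ.symm (z * c) • V) w) = w := by
    intro w
    rw [← hR]
    exact congrArg (fun T : Z →L[ℂ] Z => T w) R.inv_mul
  refine ⟨⟨1 - z • U, B, ?_, ?_⟩, rfl⟩
  · ext y
    obtain ⟨w, rfl⟩ := S.surjective y
    change (1 - z • U) (B (S w)) = S w
    rw [hB, key, h1]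
  · ext y
    obtain ⟨w, rfl⟩ := S.surjective y
    change B ((1 - z • U) (S w)) = S w
    rw [key, hB, h2]

theorem conj_qn_semi {Z : Type*} [NormedAddCommGroup Z] [NormedSpace ℂ Z]
    (S : Z ≃+ Y) (τ : ℂ ≃+* ℂ) (hS : ∀ (c : ℂ) x, S (c • x) = τ c • S x)
    (hc : (Module.Finite ℂ Z ∧ Module.Finite ℂ Y) ∨ (Continuous S ∧ Continuous S.symm))
    {U : Y →L[ℂ] Y} {V : Z →L[ℂ] Z} {c : ℂ} (hc0 : c ≠ 0)
    (h : ∀ x, U (S x) = c • S (V x)) : QN U ↔ QN V := by
  refine ⟨fun hU => ?_, conj_qn_semi_aux S τ hS hc h⟩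
  have hτc : τ.symm c ≠ 0 := by
    intro h0
    apply hc0
    have := congrArg τ h0
    rwa [RingEquiv.apply_symm_apply, map_zero] at this
  refine conj_qn_semi_aux S.symm τ.symm (symm_semi S τ hS) (c := (τ.symm c)⁻¹) ?_ ?_ hU
  · rcases hc with ⟨h1, h2⟩ | ⟨h1, h2⟩
    · exact Or.inl ⟨h2, h1⟩
    · exact Or.inr ⟨h2, h1⟩
  · intro y
    have h1 := h (S.symm y)
    rw [AddEquiv.apply_symm_apply] at h1
    rw [h1, symm_semi S τ hS, AddEquiv.symm_apply_apply, smul_smul, inv_mul_cancel₀ hτc, one_smul]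

end Pool.Agent.H.MP_bb4c62_an.helper6.NL
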